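import Pool.Agent.Y678.BR.Final

/-!
# MP_85fa26_an: which II₁ factors admit an affine isometric embedding

The definitions (`PTr`, `IsHyperfinite`, `IsIIOneFactor`, `Ultrapower`, `UHom`, `HomSpace`,
`brownDist`, `IsConvexComb`, `IsAffine`, `IsIsometric`, ...) are those of
`Pool.Agent.Helper234.BrownDefs`, used by the starting result `NoIsometricAffineMapBothNorms`.
-/

set_option autoImplicit false

open scoped BoundedContinuousFunction
open Pool.Agent.Helper234.Brown

namespace Pool.Agent.Results.MP_85fa26_an.SinglePointCriterion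

universe u w

/-- A separable tracial algebra is generated by a sequence of contractions. -/
theorem exists_generates {M : Type u} [CStarAlgebra M] {s : PTr M} (hs : IsSep s) :
    ∃ a : ℕ → M, (∀ n, ‖a n‖ ≤ 1) ∧ Generates s a := by
  obtain ⟨S, hS, hd⟩ := hs
  have hne : S.Nonempty := by
    obtain ⟨y, hy, -⟩ := hd 0 1 one_pos
    exact ⟨y, hy⟩
  obtain ⟨x, rfl⟩ := hS.exists_eq_range hne
  refine ⟨fun n => (((‖x n‖ + 1)⁻¹ : ℝ) : ℂ) • x n, fun n => ?_, ?_⟩
  · have h0 : 0 < ‖x n‖ + 1 := by positivity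
    rw [norm_smul, Complex.norm_real, Real.norm_eq_abs, abs_of_pos (by positivity),
      inv_mul_le_iff₀ h0]
    linarith
  · intro z ε hε
    obtain ⟨_, ⟨n, rfl⟩, h1⟩ := hd z ε hε
    refine ⟨x n, ?_, h1⟩
    have h0 : (0 : ℝ) < ‖x n‖ + 1 := by positivity
    have h2 : x n = ((‖x n‖ + 1 : ℝ) : ℂ) • ((((‖x n‖ + 1)⁻¹ : ℝ) : ℂ) • x n) := by
      rw [smul_smul, ← Complex.ofReal_mul, mul_inv_cancel₀ h0.ne', Complex.ofReal_one, one_smul]
    have h3 : (((‖x n‖ + 1)⁻¹ : ℝ) : ℂ) • x n ∈ StarAlgebra.adjoin ℂ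
        (Set.range fun n => (((‖x n‖ + 1)⁻¹ : ℝ) : ℂ) • x n) :=
      StarAlgebra.subset_adjoin ℂ _ ⟨n, rfl⟩
    rw [h2]
    exact SMulMemClass.smul_mem _ h3

theorem strictConvex_punit : StrictConvexSpace ℝ PUnit.{w + 1} :=
  ⟨fun _ _ => (Set.subsingleton_of_subsingleton).strictConvex⟩

/-- Let `R` be the hyperfinite II₁ factor with trace `t` and `U` a free ultrafilter on `ℕ`.

For EVERY II₁ factor `(M, s)` and EVERY sequence `a` of contractions generating it:
* `Hom(M, R^U)` has an affine isometric embedding into a strictly convex Banach space (for the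
  distance defined by `a`) if and only if it has at most one point;
* the same holds for affine isometric maps into arbitrary real normed spaces;
* the distance vanishes exactly for unitarily equivalent homomorphisms, and it satisfies the strict
  triangle inequality: no point lies metrically between two others.

There is a separable II₁ factor embeddable into `R^U` for which `Hom(M, R^U)` has at least two
points. -/
theorem result {R : Type u} [CStarAlgebra R] (t : PTr R) (hR : IsHyperfinite t)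
    (U : Ultrafilter ℕ) (hU : (U : Filter ℕ) ≤ Filter.cofinite) :
    (∀ (M : Type u) [CStarAlgebra M] (s : PTr M), IsIIOneFactor s →
      ∀ a : ℕ → M, (∀ n, ‖a n‖ ≤ 1) → Generates s a →
        ((∃ (B : Type w) (_ : NormedAddCommGroup B) (_ : NormedSpace ℝ B)
            (Φ : HomSpace M t U → B), CompleteSpace B ∧ StrictConvexSpace ℝ B ∧ IsAffine Φ ∧
              IsIsometric a Φ) ↔ Subsingleton (HomSpace M t U)) ∧
        ((∃ (B : Type w) (_ : NormedAddCommGroup B) (_ : NormedSpace ℝ B)
            (Φ : HomSpace M t U → B), IsAffine Φ ∧ IsIsometric a Φ) ↔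
              Subsingleton (HomSpace M t U)) ∧
        (∀ π ρ : UHom M t U, brownDist t U a π ρ = 0 ↔
          (homClass π : HomSpace M t U) = homClass ρ) ∧
        ∀ π σ ρ : UHom M t U, (homClass π : HomSpace M t U) ≠ homClass σ →
          (homClass σ : HomSpace M t U) ≠ homClass ρ →
          brownDist t U a π ρ < brownDist t U a π σ + brownDist t U a σ ρ) ∧
    ∃ (M : Type u) (_ : CStarAlgebra M) (s : PTr M), IsIIOneFactor s ∧ IsSep s ∧
      EmbedsInUltrapower s t U ∧ ¬ Subsingleton (HomSpace M t U) := by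
  refine ⟨?_, ?_⟩
  · intro M _ s hs a ha hgen
    refine ⟨⟨?_, ?_⟩, ⟨?_, ?_⟩, ?_, ?_⟩
    · rintro ⟨B, i1, i2, Φ, -, -, hΦ, hiso⟩
      exact Pool.Agent.Y678.BR.subsingleton_of_embedding hR hU hs ha hgen Φ hΦ hiso
    · intro h
      obtain ⟨Φ, hΦ, hiso⟩ := Pool.Agent.Y678.BR.embedding_of_subsingleton (t := t) (U := U) a h
        (B := PUnit.{w + 1})
      exact ⟨PUnit.{w + 1}, inferInstance, inferInstance, Φ, inferInstance, strictConvex_punit,
        hΦ, hiso⟩
    · rintro ⟨B, i1, i2, Φ, hΦ, hiso⟩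
      exact Pool.Agent.Y678.BR.subsingleton_of_embedding hR hU hs ha hgen Φ hΦ hiso
    · intro h
      obtain ⟨Φ, hΦ, hiso⟩ := Pool.Agent.Y678.BR.embedding_of_subsingleton (t := t) (U := U) a h
        (B := PUnit.{w + 1})
      exact ⟨PUnit.{w + 1}, inferInstance, inferInstance, Φ, hΦ, hiso⟩
    · exact fun π ρ => Pool.Agent.Y678.BR.dist_zero_iff hs hU ha hgen π ρ
    · exact fun π σ ρ => Pool.Agent.Y678.BR.strict hs hU ha hgen π σ ρ
  · obtain ⟨M, i1, s, h1, h2, h3, h4⟩ := main.{u, w} hR hU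
    refine ⟨M, i1, s, h1, h2, h3, fun h => ?_⟩
    obtain ⟨a, ha, hgen⟩ := exists_generates h2
    obtain ⟨Φ, hΦ, hiso⟩ := Pool.Agent.Y678.BR.embedding_of_subsingleton (t := t) (U := U) a h
        (B := PUnit.{w + 1})
    exact h4 a ha hgen PUnit.{w + 1} inferInstance inferInstance Φ hΦ hiso

end Pool.Agent.Results.MP_85fa26_an.SinglePointCriterion
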